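import Pool.Agent.Helper56.RZ.GoalsA

/-!
# Project RZ, packet E1
-/

set_option autoImplicit false

open Set Filter Topology MeasureTheory

namespace Pool.Agent.Helper50.RZ

open Pool.Agent.Helper56.RZ

section alg
variable {X : Type} [TopologicalSpace X] {K : ℕ}

theorem inj1 (C : Coc X K) (P : X → End K) (hP : Sub C P) (x : X) (v : E K) (h1 : P x v = v)
    (h2 : C.A x v = 0) : v = 0 := by
  have h3 : C.T x (P x v) = P x v := congrArg (fun L : End K => L v) (hP.TP x)
  have h4 : C.B (C.f x) (C.A x v) = C.T x v := congrArg (fun L : End K => L v) (C.BA x)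
  rw [h1] at h3
  rw [h2, map_zero, h3] at h4
  exact h4.symm

theorem sub_inv (C : Coc X K) (P : X → End K) (hP : Sub C P) : Sub C.inv P where
  cont := hP.cont
  PP := hP.PP
  PT := hP.PT
  TP := hP.TP
  inv := by
    intro x
    change C.B x * P x = P (C.f.symm x) * C.B x
    have h1 := hP.inv (C.f.symm x)
    rw [Homeomorph.apply_symm_apply] at h1
    have h2 := C.AB (C.f.symm x)
    rw [Homeomorph.apply_symm_apply] at h2
    have h3 := C.BA (C.f.symm x)
    rw [Homeomorph.apply_symm_apply] at h3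
    calc C.B x * P x = C.B x * (P x * C.T x) := by rw [hP.PT]
      _ = C.B x * ((P x * C.A (C.f.symm x)) * C.B x) := by rw [← h2, mul_assoc]
      _ = C.B x * ((C.A (C.f.symm x) * P (C.f.symm x)) * C.B x) := by rw [h1]
      _ = (C.B x * C.A (C.f.symm x)) * (P (C.f.symm x) * C.B x) := by simp only [mul_assoc]
      _ = P (C.f.symm x) * C.B x := by rw [h3, ← mul_assoc, hP.TP]

theorem rank_le (C : Coc X K) (P : X → End K) (hP : Sub C P) (x : X) :
    Module.finrank ℝ (LinearMap.range (P x : E K →ₗ[ℝ] E K)) ≤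
      Module.finrank ℝ (LinearMap.range (P (C.f x) : E K →ₗ[ℝ] E K)) := by
  have hm : ∀ u ∈ LinearMap.range (P x : E K →ₗ[ℝ] E K),
      (C.A x : E K →ₗ[ℝ] E K) u ∈ LinearMap.range (P (C.f x) : E K →ₗ[ℝ] E K) := by
    rintro u ⟨w, rfl⟩
    refine ⟨C.A x w, ?_⟩
    have := congrArg (fun L : End K => L w) (hP.inv x)
    exact this.symm
  refine LinearMap.finrank_le_finrank_of_injective
    (f := (C.A x : E K →ₗ[ℝ] E K).restrict hm) ?_
  rw [← LinearMap.ker_eq_bot, LinearMap.ker_eq_bot']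
  rintro ⟨u, w, rfl⟩ hu
  have hu : C.A x (P x w) = 0 := congrArg Subtype.val hu
  have h1 : P x (P x w) = P x w := congrArg (fun L : End K => L w) (hP.PP x)
  exact Subtype.ext (inj1 C P hP x _ h1 hu)

theorem rank_eq (C : Coc X K) (P : X → End K) (hP : Sub C P) (x : X) :
    Module.finrank ℝ (LinearMap.range (P x : E K →ₗ[ℝ] E K)) =
      Module.finrank ℝ (LinearMap.range (P (C.f x) : E K →ₗ[ℝ] E K)) := by
  refine le_antisymm (rank_le C P hP x) ?_
  have h := rank_le C.inv P (sub_inv C P hP) (C.f x)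
  change _ ≤ Module.finrank ℝ
    (LinearMap.range (P (C.f.symm (C.f x)) : E K →ₗ[ℝ] E K)) at h
  rwa [Homeomorph.symm_apply_apply] at h

theorem An_comm (C : Coc X K) (P : X → End K) (hP : Sub C P) (n : ℕ) (x : X) :
    C.An n x * P x = P (C.f^[n] x) * C.An n x := by
  induction n with
  | zero => exact (hP.TP x).trans (hP.PT x).symm
  | succ n ih =>
    change C.A (C.f^[n] x) * C.An n x * P x = P (C.f^[n + 1] x) * (C.A (C.f^[n] x) * C.An n x)
    rw [mul_assoc, ih, ← mul_assoc, hP.inv, Function.iterate_succ_apply', mul_assoc]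

theorem An_inj (C : Coc X K) (P : X → End K) (hP : Sub C P) (n : ℕ) (x : X) (v : E K)
    (h1 : P x v = v) (h2 : C.An n x v = 0) : v = 0 := by
  induction n with
  | zero =>
    have h3 : C.T x (P x v) = P x v := congrArg (fun L : End K => L v) (hP.TP x)
    rw [h1] at h3
    have h2 : C.T x v = 0 := h2
    rw [← h3, h2]
  | succ n ih =>
    have h2 : C.A (C.f^[n] x) (C.An n x v) = 0 := h2
    have h3 : C.An n x (P x v) = P (C.f^[n] x) (C.An n x v) :=
      congrArg (fun L : End K => L v) (An_comm C P hP n x)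
    rw [h1] at h3
    exact ih (inj1 C P hP _ _ h3.symm h2)

theorem rank_An (C : Coc X K) (P : X → End K) (hP : Sub C P) (n : ℕ) (x : X) :
    Module.finrank ℝ (LinearMap.range (P x : E K →ₗ[ℝ] E K)) =
      Module.finrank ℝ (LinearMap.range (P (C.f^[n] x) : E K →ₗ[ℝ] E K)) := by
  induction n with
  | zero => rfl
  | succ n ih => rw [ih, rank_eq C P hP, Function.iterate_succ_apply']

theorem Jac_proj (h2 : StmtJ2) (C : Coc X K) (P : X → End K) (hP : Sub C P) (x : X) :
    Jac (C.T x) (P x) = 1 := by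
  have h3 := (h2 K (C.T x) (P x) (hP.PP x)).2.2.1
  have h4 := (h2 K 1 (P x) (hP.PP x)).2.2.1
  have h5 := (h2 K 1 (P x) (hP.PP x)).1 (by rw [mul_one, one_mul, hP.PP])
  rw [one_mul] at h4
  rw [one_mul, add_sub_cancel_left] at h5
  rw [← h3, hP.TP, h4, h5]
  simp

theorem Jac_An (h1 : StmtJ1) (h2 : StmtJ2) (C : Coc X K) (P : X → End K) (hP : Sub C P) (n : ℕ)
    (x : X) : Real.log (Jac (C.An n x) (P x)) =
      ∑ k ∈ Finset.range n, Real.log (Jac (C.A (C.f^[k] x)) (P (C.f^[k] x))) := by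
  induction n with
  | zero =>
    change Real.log (Jac (C.T x) (P x)) = _
    rw [Jac_proj h2 C P hP]
    simp
  | succ n ih =>
    have h3 := h1 K (C.A (C.f^[n] x)) (C.An n x) (P x) (P (C.f^[n] x)) (hP.PP x) (hP.PP _) ?_
      (fun v hv => An_inj C P hP n x v hv) (rank_An C P hP n x)
    · change Real.log (Jac (C.A (C.f^[n] x) * C.An n x) (P x)) = _
      rw [h3, Finset.sum_range_succ, Real.log_mul, ih, add_comm]
      · exact ((h2 K _ _ (hP.PP _)).2.1 (fun v hv => inj1 C P hP _ v hv)).ne'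
      · exact ((h2 K _ _ (hP.PP _)).2.1 (fun v hv => An_inj C P hP n x v hv)).ne'
    · rw [← An_comm C P hP, mul_assoc, hP.PP]

theorem Jac_inv (h1 : StmtJ1) (h2 : StmtJ2) (C : Coc X K) (P : X → End K) (hP : Sub C P)
    (x : X) : Real.log (Jac (C.B (C.f x)) (P (C.f x))) =
      - Real.log (Jac (C.A x) (P x)) := by
  have h3 := h1 K (C.B (C.f x)) (C.A x) (P x) (P (C.f x)) (hP.PP x) (hP.PP _) ?_
    (fun v hv => inj1 C P hP x v hv) (rank_eq C P hP x)
  · rw [C.BA, Jac_proj h2 C P hP] at h3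
    have h4 : 0 < Jac (C.A x) (P x) :=
      (h2 K _ _ (hP.PP _)).2.1 (fun v hv => inj1 C P hP _ v hv)
    have h5 : 0 < Jac (C.B (C.f x)) (P (C.f x)) :=
      (h2 K _ _ (hP.PP _)).2.1 (fun v hv => inj1 C.inv P (sub_inv C P hP) _ v hv)
    have h6 := congrArg Real.log h3
    rw [Real.log_one, Real.log_mul h5.ne' h4.ne'] at h6
    linarith
  · rw [← hP.inv, mul_assoc, hP.PP]

end alg

/-- growth of the norm -/
theorem norm_bound {K : ℕ} (L : ℕ → End K) (Q : End K) (hQ : Q * Q = Q)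
    (h : ∀ v, Q v = v → v ≠ 0 → Tendsto (fun n : ℕ => Real.log ‖L n v‖ / n) atTop (𝓝 0))
    (ε : ℝ) (hε : 0 < ε) : ∀ᶠ n : ℕ in atTop, ‖L n * Q‖ ≤ (K + 1) * Real.exp (ε * n) := by
  have h1 : ∀ i : Fin K, ∀ᶠ n : ℕ in atTop,
      ‖(L n * Q) (EuclideanSpace.basisFun (Fin K) ℝ i)‖ ≤ Real.exp (ε * n) := by
    intro i
    obtain ⟨v, hv⟩ : ∃ v, v = Q (EuclideanSpace.basisFun (Fin K) ℝ i) := ⟨_, rfl⟩
    have hQv : Q v = v := by
      rw [hv]
      exact congrArg (fun M : End K => M (EuclideanSpace.basisFun (Fin K) ℝ i)) hQ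
    have hLv : ∀ n, (L n * Q) (EuclideanSpace.basisFun (Fin K) ℝ i) = L n v := fun n => by
      rw [hv]; rfl
    rcases eq_or_ne v 0 with h0 | h0
    · filter_upwards with n
      rw [hLv, h0, map_zero, norm_zero]
      exact (Real.exp_pos _).le
    · filter_upwards [(h v hQv h0).eventually_lt_const hε, eventually_gt_atTop 0] with n hn hn0
      rw [hLv]
      rcases (norm_nonneg (L n v)).eq_or_lt with h2 | h2
      · rw [← h2]
        exact (Real.exp_pos _).le
      · have hn0' : (0 : ℝ) < n := by exact_mod_cast hn0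
        rw [div_lt_iff₀ hn0'] at hn
        rw [← Real.log_le_iff_le_exp h2]
        exact hn.le
  have h2 := (eventually_all (ι := Fin K)).2 h1
  filter_upwards [h2] with n hn
  refine ContinuousLinearMap.opNorm_le_bound _ (by positivity) fun v => ?_
  have h3 : v = ∑ i, v i • EuclideanSpace.basisFun (Fin K) ℝ i := by
    have := (EuclideanSpace.basisFun (Fin K) ℝ).sum_repr v
    simpa using this.symm
  calc ‖(L n * Q) v‖ = ‖∑ i, v i • (L n * Q) (EuclideanSpace.basisFun (Fin K) ℝ i)‖ := by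
        conv_lhs => rw [h3, map_sum]
        simp only [map_smul]
    _ ≤ ∑ i, ‖v i • (L n * Q) (EuclideanSpace.basisFun (Fin K) ℝ i)‖ := norm_sum_le _ _
    _ ≤ ∑ _i : Fin K, ‖v‖ * Real.exp (ε * n) := by
        refine Finset.sum_le_sum fun i _ => ?_
        rw [norm_smul]
        exact mul_le_mul (PiLp.norm_apply_le v i) (hn i) (norm_nonneg _) (norm_nonneg _)
    _ = K * (‖v‖ * Real.exp (ε * n)) := by simp
    _ ≤ (K + 1) * Real.exp (ε * n) * ‖v‖ := by
        have : 0 ≤ ‖v‖ * Real.exp (ε * n) := by positivity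
        nlinarith

/-- the upper bound -/
theorem upper (h1 : StmtJ1) (h2 : StmtJ2) (h3 : StmtJ3) (X : Type) [MetricSpace X]
    [CompactSpace X] [MeasurableSpace X] [BorelSpace X] (K : ℕ) (C : Coc X K) (P : X → End K)
    (m : Measure X) [IsFiniteMeasure m] (hP : Sub C P) (hm : MeasurePreserving C.f m m)
    (h : ∀ᵐ x ∂m, ∀ v, P x v = v → v ≠ 0 →
      Tendsto (fun n : ℕ => Real.log ‖C.An n x v‖ / n) atTop (𝓝 0)) :
    Lam C P m ≤ 0 := by
  obtain ⟨g, hg⟩ : ∃ g : X → ℝ, g = fun x => Real.log (Jac (C.A x) (P x)) := ⟨_, rfl⟩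
  have hgc : Continuous g := by
    rw [hg]
    exact h3 X K C.A P C.contA hP.cont hP.PP (fun x v hv => inj1 C P hP x v hv)
  obtain ⟨G, hG⟩ : ∃ G : ℝ, ∀ x, |g x| ≤ G := by
    obtain ⟨G, hG⟩ := isCompact_univ.exists_bound_of_continuousOn (f := g) hgc.continuousOn
    exact ⟨G, fun x => hG x (mem_univ x)⟩
  have hint : ∀ φ : X → ℝ, Continuous φ → Integrable φ m := by
    intro φ hφ
    obtain ⟨B, hB⟩ := isCompact_univ.exists_bound_of_continuousOn (f := φ) hφ.continuousOn
    exact Integrable.of_bound hφ.aestronglyMeasurable B (ae_of_all _ fun x => hB x (mem_univ x))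
  have hfk : ∀ k : ℕ, Continuous (C.f^[k]) := fun k => C.f.continuous.iterate k
  have hsum : ∀ k : ℕ, ∫ x, g (C.f^[k] x) ∂m = ∫ x, g x ∂m := by
    intro k
    have hk : MeasurePreserving (C.f^[k]) m m := hm.iterate k
    conv_rhs => rw [← hk.map_eq]
    exact (integral_map hk.measurable.aemeasurable hgc.aestronglyMeasurable).symm
  obtain ⟨s, hs⟩ : ∃ s : ℕ → X → ℝ,
      s = fun n x => (∑ k ∈ Finset.range n, g (C.f^[k] x)) / n := ⟨_, rfl⟩
  have hsc : ∀ n, Continuous (s n) := by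
    intro n
    rw [hs]
    exact (continuous_finsetSum _ fun k _ => hgc.comp (hfk k)).div_const _
  have hsb : ∀ n x, |s n x| ≤ G := by
    intro n x
    have hG0 : 0 ≤ G := (abs_nonneg _).trans (hG x)
    rw [hs]
    show |(∑ k ∈ Finset.range n, g (C.f^[k] x)) / n| ≤ G
    rw [abs_div, Nat.abs_cast]
    refine div_le_of_le_mul₀ (Nat.cast_nonneg n) hG0 ?_
    refine (Finset.abs_sum_le_sum_abs _ _).trans ?_
    refine (Finset.sum_le_sum fun k _ => hG _).trans ?_
    simp [mul_comm]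
  have hsi : ∀ n : ℕ, 1 ≤ n → ∫ x, s n x ∂m = Lam C P m := by
    intro n hn
    have hn0 : (n : ℝ) ≠ 0 := by exact_mod_cast (by omega : n ≠ 0)
    rw [hs]
    show ∫ x, (∑ k ∈ Finset.range n, g (C.f^[k] x)) / n ∂m = _
    have hk : ∀ k ∈ Finset.range n, Integrable (fun x => g (C.f^[k] x)) m :=
      fun k _ => hint _ (hgc.comp (hfk k))
    rw [integral_div, integral_finsetSum _ hk]
    simp only [hsum]
    rw [Finset.sum_const, Finset.card_range, nsmul_eq_mul, mul_div_cancel_left₀ _ hn0, hg]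
    rfl
  have hpt : ∀ᵐ x ∂m, Tendsto (fun n => max (s n x) 0) atTop (𝓝 0) := by
    filter_upwards [h] with x hx
    rw [tendsto_order]
    refine ⟨fun a ha => Eventually.of_forall fun n => lt_of_lt_of_le ha (le_max_right _ _), ?_⟩
    intro a ha
    obtain ⟨ε, hε, hεa⟩ : ∃ ε : ℝ, 0 < ε ∧ ε * K < a := by
      refine ⟨a / (K + 1), by positivity, ?_⟩
      rw [div_mul_eq_mul_div, div_lt_iff₀ (by positivity)]
      nlinarith [(Nat.cast_nonneg K : (0 : ℝ) ≤ K)]
    have h4 := norm_bound (fun n => C.An n x) (P x) (hP.PP x) hx ε hε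
    obtain ⟨R, hR⟩ : ∃ R : ℝ, R = Real.log (2 * ((K + 1 : ℝ) ^ 2 + ‖1 - P x‖ ^ 2)) := ⟨_, rfl⟩
    have hR' : Tendsto (fun n : ℕ => K * R / 2 / n + ε * K) atTop (𝓝 (0 + ε * K)) := by
      refine Tendsto.add ?_ tendsto_const_nhds
      exact tendsto_const_div_atTop_nhds_zero_nat _
    rw [zero_add] at hR'
    filter_upwards [h4, hR'.eventually_lt_const hεa, eventually_gt_atTop 0] with n hn hn1 hn0
    refine max_lt (lt_of_le_of_lt ?_ hn1) ha
    have hn0' : (0 : ℝ) < n := by exact_mod_cast hn0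
    have h5 : (∑ k ∈ Finset.range n, g (C.f^[k] x)) = Real.log (Jac (C.An n x) (P x)) := by
      rw [Jac_An h1 h2 C P hP n x, hg]
    have hJ0 : 0 < Jac (C.An n x) (P x) :=
      (h2 K _ _ (hP.PP _)).2.1 (fun v hv => An_inj C P hP n x v hv)
    have hJ := (h2 K (C.An n x) (P x) (hP.PP x)).2.2.2
    have h6 : (2 * (‖C.An n x * P x‖ ^ 2 + ‖1 - P x‖ ^ 2)) ≤
        2 * ((K + 1 : ℝ) ^ 2 + ‖1 - P x‖ ^ 2) * Real.exp (2 * (ε * n)) := by
      have h7 : ‖C.An n x * P x‖ ^ 2 ≤ (K + 1 : ℝ) ^ 2 * Real.exp (2 * (ε * n)) := by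
        have := pow_le_pow_left₀ (norm_nonneg _) hn 2
        rw [mul_pow, ← Real.exp_nat_mul] at this
        exact_mod_cast this
      have h8 : 1 ≤ Real.exp (2 * (ε * n)) := Real.one_le_exp (by positivity)
      have h9 : ‖1 - P x‖ ^ 2 ≤ ‖1 - P x‖ ^ 2 * Real.exp (2 * (ε * n)) :=
        le_mul_of_one_le_right (by positivity) h8
      nlinarith
    have h7 : Jac (C.An n x) (P x) ^ 2 ≤
        (2 * ((K + 1 : ℝ) ^ 2 + ‖1 - P x‖ ^ 2) * Real.exp (2 * (ε * n))) ^ K :=
      hJ.trans (pow_le_pow_left₀ (by positivity) h6 K)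
    have h8 := Real.log_le_log (by positivity) h7
    rw [Real.log_pow, Real.log_pow, Real.log_mul (by positivity) (Real.exp_pos _).ne',
      Real.log_exp, ← hR] at h8
    rw [hs]
    show (∑ k ∈ Finset.range n, g (C.f^[k] x)) / n ≤ _
    rw [h5, div_le_iff₀ hn0']
    have h9 : (K * R / 2 / n + ε * K) * n = K * R / 2 + ε * K * n := by
      field_simp
    rw [h9]
    push_cast at h8
    nlinarith
  have hlim : Tendsto (fun n => ∫ x, max (s n x) 0 ∂m) atTop (𝓝 (∫ _x, (0 : ℝ) ∂m)) := by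
    refine tendsto_integral_of_dominated_convergence (fun _ => G) ?_ ?_ ?_ hpt
    · exact fun n => ((hsc n).max continuous_const).aestronglyMeasurable
    · exact integrable_const _
    · intro n
      refine ae_of_all _ fun x => ?_
      have h4 := abs_le.1 (hsb n x)
      have hG0 : 0 ≤ G := (abs_nonneg _).trans (hG x)
      rw [Real.norm_eq_abs, abs_of_nonneg (le_max_right _ _)]
      exact max_le h4.2 hG0
  rw [integral_zero] at hlim
  refine ge_of_tendsto hlim ?_
  filter_upwards [eventually_ge_atTop 1] with n hn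
  rw [← hsi n hn]
  exact integral_mono (hint _ (hsc n)) (hint _ ((hsc n).max continuous_const))
    fun x => le_max_left _ _

/-- Packet E1. -/
theorem e1 (h1 : StmtJ1) (h2 : StmtJ2) (h3 : StmtJ3) : StmtE1 := by
  intro X _ _ _ _ K C P m _ hP hm h
  have hm' : MeasurePreserving C.inv.f m m := by
    have := hm.symm C.f.toMeasurableEquiv
    exact this
  have h4 : Lam C P m ≤ 0 := by
    refine upper h1 h2 h3 X K C P m hP hm ?_
    filter_upwards [h] with x hx v hv hv0
    exact (hx v hv hv0).1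
  have h5 : Lam C.inv P m ≤ 0 := by
    refine upper h1 h2 h3 X K C.inv P m (sub_inv C P hP) hm' ?_
    filter_upwards [h] with x hx v hv hv0
    exact (hx v hv hv0).2
  have h6 : Lam C.inv P m = - Lam C P m := by
    have hc : Continuous (fun x => Real.log (Jac (C.B x) (P x))) :=
      h3 X K C.B P C.contB hP.cont hP.PP
        (fun x v hv => inj1 C.inv P (sub_inv C P hP) x v hv)
    have h7 : ∫ x, Real.log (Jac (C.B (C.f x)) (P (C.f x))) ∂m =
        ∫ x, Real.log (Jac (C.B x) (P x)) ∂m := by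
      conv_rhs => rw [← hm.map_eq]
      exact (integral_map hm.measurable.aemeasurable hc.aestronglyMeasurable).symm
    change ∫ x, Real.log (Jac (C.B x) (P x)) ∂m = - ∫ x, Real.log (Jac (C.A x) (P x)) ∂m
    rw [← h7, ← integral_neg]
    exact integral_congr_ae (ae_of_all _ fun x => Jac_inv h1 h2 C P hP x)
  linarith

end Pool.Agent.Helper50.RZ
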